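import Pool.Agent.Helper1.UQ.Defs
import Pool.Agent.Helper30.RCU.Geo
import Pool.Agent.Helper30.RCU.Sand

/-! # Project UQ: basic lemmas -/

set_option autoImplicit false

open Finset

namespace Pool.Agent.Helper1.UQ

open Classical Pool.Agent.Helper30.RCU

universe u

section

variable {V : Type u} {G : SimpleGraph V}

lemma mem_te (hlf : ∀ v, (G.neighborSet v).Finite) {I : Finset V} {e : G.edgeSet} :
    e ∈ te G I ↔ ∃ v ∈ (e : Sym2 V), v ∈ I := by
  have h : {e : G.edgeSet | ∃ v ∈ (e : Sym2 V), v ∈ I}.Finite :=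
    touch_finite hlf (S := (I : Set V)) I.finite_toSet
  unfold te
  rw [dif_pos h, Set.Finite.mem_toFinset]
  exact Iff.rfl

lemma mem_bd (hlf : ∀ v, (G.neighborSet v).Finite) {I : Finset V} {e : G.edgeSet} :
    e ∈ bd G I ↔ (∃ v ∈ (e : Sym2 V), v ∈ I) ∧ ∃ v ∈ (e : Sym2 V), v ∉ I := by
  unfold bd
  rw [Finset.mem_filter, mem_te hlf]

lemma mem_bl (hG : G.Connected) (hlf : ∀ v, (G.neighborSet v).Finite) {x v : V} {n : ℕ} :
    v ∈ bl G x n ↔ G.dist x v < n := by
  have h : {v : V | G.dist x v < n}.Finite :=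
    (ball_finite hG hlf x n).subset fun v (hv : G.dist x v < n) => (show G.dist x v ≤ n from le_of_lt hv)
  unfold bl
  rw [dif_pos h, Set.Finite.mem_toFinset]
  exact Iff.rfl

lemma te_mono (hlf : ∀ v, (G.neighborSet v).Finite) {I J : Finset V} (h : I ⊆ J) :
    te G I ⊆ te G J := by
  intro e he
  rw [mem_te hlf] at he ⊢
  obtain ⟨v, hv, hvI⟩ := he
  exact ⟨v, hv, h hvI⟩

lemma pr_nonneg {p t : ℝ} (hp : 0 ≤ p) (ht : 0 ≤ t) (e : GE G) : 0 ≤ pr G p t e := by
  rcases e with e | v
  · exact hp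
  · exact ht

lemma pr_le_one {p t : ℝ} (hp : p ≤ 1) (ht : t ≤ 1) (e : GE G) : pr G p t e ≤ 1 := by
  rcases e with e | v
  · exact hp
  · exact ht

lemma sg_some_of_mem {I : Finset V} {v : V} (h : v ∈ I) : sg I (some v) = some v := by
  simp [sg, h]

lemma sg_some_of_notMem {I : Finset V} {v : V} (h : v ∉ I) : sg I (some v) = none := by
  simp [sg, h]

lemma sg_none {I : Finset V} : sg I (none : Option V) = none := rfl

/-- identification for a smaller domain after identification for a larger one -/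
lemma sg_sg {I J : Finset V} (h : I ⊆ J) (o : Option V) : sg I (sg J o) = sg I o := by
  rcases o with _ | v
  · rfl
  · by_cases hJ : v ∈ J
    · rw [sg_some_of_mem hJ]
    · rw [sg_some_of_notMem hJ, sg_none, sg_some_of_notMem fun hI => hJ (h hI)]

lemma cm_pI {I J : Finset V} (h : I ⊆ J) : cm (pI G J) (sg I) = pI G I := by
  funext e
  unfold pI cm
  rw [Sym2.map_map]
  congr 1
  funext o
  exact sg_sg h o

end

/-- the expectation only depends on the probabilities of the edges in `E` -/
lemma ex_congr_p {V ι : Type u} {φ : ι → Sym2 V} {p p' : ι → ℝ} {q : ℝ} {E : Finset ι}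
    (h : ∀ e ∈ E, p e = p' e) (f : Finset ι → ℝ) : ex φ p q E f = ex φ p' q E f := by
  have hS : ∀ g : Finset ι → ℝ, S φ p q E g = S φ p' q E g := by
    intro g
    unfold S
    refine Finset.sum_congr rfl fun ω hω => ?_
    have hw : wt φ p q E ω = wt φ p' q E ω := by
      unfold wt
      rw [Finset.prod_congr rfl fun e he => h e (mem_powerset.mp hω he)]
      congr 2
      exact Finset.prod_congr rfl fun e he => by rw [h e (mem_sdiff.mp he).1]
    rw [hw]
  unfold ex
  rw [hS, hS]

end Pool.Agent.Helper1.UQ
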