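import Pool.Agent.Helper30.RCU.Base

/-!
# Project UQ (MP_e3e162_pr): uniqueness of random-cluster measures for `1 ≤ q ≤ 2`

Definitions. The finite-volume theory (`gr`, `Conn`, `rk`, `wt`, `S`, `ex`, `ind`, `theta`) is in
`Pool.Agent.Helper30.RCU.Base`: `ex φ p q E f` is the random-cluster expectation of `f` on the finite
edge set `E` of the multigraph `φ : ι → Sym2 V` with edge probabilities `p : ι → ℝ` and cluster weight
`q` (weights `∏ p ∏ (1-p) q⁻¹ ^ rk`).
-/

set_option autoImplicit false

open Finset

namespace Pool.Agent.Helper1.UQ

open Classical Pool.Agent.Helper30.RCU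

universe u

/-! ### finite multigraphs -/

section

variable {V ι : Type u}

/-- `lam` to the power (rank of `F` after contraction of `ω`) -/
noncomputable def ps (φ : ι → Sym2 V) (lam : ℝ) (F ω : Finset ι) : ℝ :=
  lam ^ (rk φ (ω ∪ F) - rk φ ω)

/-- the indicator that no edge of `T` is open -/
noncomputable def nt (T ω : Finset ι) : ℝ := if Disjoint ω T then 1 else 0

/-- the probability that all edges of `T` are closed -/
noncomputable def cl (φ : ι → Sym2 V) (p : ι → ℝ) (q : ℝ) (E T : Finset ι) : ℝ :=
  ex φ p q E (nt T)

/-- the indicator that the edge `e` is open -/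
noncomputable def oe (e : ι) (ω : Finset ι) : ℝ := if e ∈ ω then 1 else 0

/-- trail weight: the edges of `T` have been explored, those of `F` are open, the trail is at `v`
and has to be continued to `g` -/
noncomputable def TW (φ : ι → Sym2 V) (p : ι → ℝ) (q : ℝ) (E T F : Finset ι) (g v : V) : ℝ :=
  (∏ e ∈ F, p e / 2) * (∏ e ∈ T \ F, (1 - p e)) *
    S φ p q (E \ T) (fun ω => ps φ (2 / q) F ω * ind φ v g ω) / S φ p q E (fun _ => 1)

/-- the multigraph obtained by identifying vertices with the map `σ` -/
def cm {V' : Type u} (φ : ι → Sym2 V) (σ : V → V') : ι → Sym2 V' := fun e => (φ e).map σ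

end

/-! ### the graph with a ghost vertex -/

section

variable {V : Type u} (G : SimpleGraph V)

/-- edges of `G` and one ghost edge for every vertex -/
abbrev GE : Type u := G.edgeSet ⊕ V

/-- ends of the edges: `none` is the ghost -/
def ph : GE G → Sym2 (Option V) :=
  Sum.elim (fun e => (e : Sym2 V).map some) (fun v => s(some v, none))

/-- identification of all vertices outside `I` with the ghost -/
noncomputable def sg (I : Finset V) : Option V → Option V :=
  fun o => o.bind fun v => if v ∈ I then some v else none

/-- ends of the edges in the domain `I` with wired boundary -/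
noncomputable def pI (I : Finset V) : GE G → Sym2 (Option V) := cm (ph G) (sg I)

/-- probability `p` for the edges of `G`, `t` for the ghost edges -/
def pr (p t : ℝ) : GE G → ℝ := Sum.elim (fun _ => p) (fun _ => t)

/-- the edges of `G` with an end in `I` (locally finite graphs) -/
noncomputable def te (I : Finset V) : Finset G.edgeSet :=
  if h : {e : G.edgeSet | ∃ v ∈ (e : Sym2 V), v ∈ I}.Finite then h.toFinset else ∅

/-- the edges of `G` with exactly one end in `I` -/
noncomputable def bd (I : Finset V) : Finset G.edgeSet :=
  (te G I).filter fun e => ∃ v ∈ (e : Sym2 V), v ∉ I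

/-- the open ball (connected locally finite graphs) -/
noncomputable def bl (x : V) (n : ℕ) : Finset V :=
  if h : {v : V | G.dist x v < n}.Finite then h.toFinset else ∅

/-- the random-cluster expectation in the domain `I`, wired boundary, ghost edges at the vertices of
`U`, edge set `A` of `G` -/
noncomputable def eD (p t q : ℝ) (I : Finset V) (A : Finset G.edgeSet) (U : Finset V)
    (f : Finset (GE G) → ℝ) : ℝ :=
  ex (pI G I) (pr G p t) q (A.disjSum U) f

/-- wired probability that `e` is open, domain `I`, no ghost edges -/
noncomputable def wI (p q : ℝ) (I : Finset V) (e : G.edgeSet) : ℝ :=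
  eD G p 0 q I (insert e (te G I)) ∅ (oe (Sum.inl e))

/-- wired probability that `e` is open, domain `I`, ghost edges at all vertices of `I` -/
noncomputable def hI (p t q : ℝ) (I : Finset V) (e : G.edgeSet) : ℝ :=
  eD G p t q I (insert e (te G I)) I (oe (Sum.inl e))

/-- free probability that `e` is open, edges with an end in `I` -/
noncomputable def fI (p q : ℝ) (I : Finset V) (e : G.edgeSet) : ℝ :=
  ex (ph G) (pr G p 0) q ((te G I).disjSum ∅) (oe (Sum.inl e))

/-- wired infinite-volume probability -/
noncomputable def w8 (p q : ℝ) (e : G.edgeSet) : ℝ := ⨅ I : Finset V, wI G p q I e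

/-- infinite-volume probability with ghost edges -/
noncomputable def h8 (p t q : ℝ) (e : G.edgeSet) : ℝ := ⨅ I : Finset V, hI G p t q I e

/-- free infinite-volume probability -/
noncomputable def f8 (p q : ℝ) (e : G.edgeSet) : ℝ := ⨆ I : Finset V, fI G p q I e

/-- wired probability that `x` is connected to the complement of `I` -/
noncomputable def th (p q : ℝ) (I : Finset V) (x : V) : ℝ :=
  eD G p 0 q I (te G I) ∅ (ind (pI G I) (some x) none)

/-- amenability: finite nonempty vertex sets with small edge boundary -/
def Amen : Prop := ∀ ε : ℝ, 0 < ε → ∃ I : Finset V, I.Nonempty ∧ ((bd G I).card : ℝ) ≤ ε * I.card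

end

end Pool.Agent.Helper1.UQ
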