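import Pool.Agent.Helper1.UQ.Defs

/-!
# Project UQ, part 1: statements about finite multigraphs

Everywhere `0 ≤ p e ≤ 1`, `1 ≤ q`. See `Defs.lean` and `Pool.Agent.Helper30.RCU.Base`
(in particular `S_insert`, `S_fkg`, `ex_fkg`, `ex_insert`, `theta_mk`, `rk_insert_of_conn`,
`rk_insert_of_not_conn`, `rk_union_sub`, `ex_mul`, `ex_add`, `ex_sub`, `ex_const`).
-/

set_option autoImplicit false

open Finset

namespace Pool.Agent.Helper1.UQ

open Classical Pool.Agent.Helper30.RCU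

universe u

/-- PSI (40 lines). Proof. `rk φ ω ≤ rk φ (ω ∪ F)` and `rk_union_sub`:
for `ω ⊆ ω'`, `rk (ω' ∪ F) - rk ω' ≤ rk (ω ∪ F) - rk ω`. `rk (ω ∪ F) ≤ rk (ω ∪ insert f F)`. -/
def StPSI : Prop := ∀ (V ι : Type u) (φ : ι → Sym2 V) (lam : ℝ), 1 ≤ lam → ∀ (F : Finset ι),
    Antitone (ps φ lam F) ∧ (∀ ω, 1 ≤ ps φ lam F ω) ∧ (∀ ω, ps φ lam ∅ ω = 1) ∧
    ∀ (f : ι) (ω : Finset ι), ps φ lam F ω ≤ ps φ lam (insert f F) ω

/-- STP (100 lines), the trail identity (exact).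
Proof. `E \ T = insert f E'`, `E' = E \ insert f T`, use `S_insert` (with `hq`). Pointwise, for
every `ω` (no condition `f ∉ ω` is needed for the identity of the functions, but one may use it),
with `lam = 2 / q`, `n = ps φ lam F (insert f ω)`:
`theta φ q f ω * (n * ind φ v g (insert f ω)) = (1/2) * ps φ lam (insert f F) ω * (ind φ v g ω + ind φ b g ω)`:
if `Conn φ ω v b` then `theta = 1`, `rk (insert f ω) = rk ω`, all three indicators agree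
(`conn_insert`) and `insert f ω ∪ F = ω ∪ insert f F`; otherwise `theta = q⁻¹`,
`rk (insert f ω) = rk ω + 1`, `rk (ω ∪ insert f F) ≥ rk ω + 1`, so
`ps φ lam (insert f F) ω = lam * n`, `q⁻¹ = lam / 2` and
`ind φ v g (insert f ω) = ind φ v g ω + ind φ b g ω` (`conn_insert`; not both can hold).
Products: `insert f T \ F = insert f (T \ F)` and `insert f T \ insert f F = T \ F` because `f ∉ T`,
`F ⊆ T`; `∏_{insert f F} p/2 = p f / 2 * ∏_F p/2`. -/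
def StSTP : Prop := ∀ (V ι : Type u) (φ : ι → Sym2 V) (p : ι → ℝ) (q : ℝ), (∀ e, 0 ≤ p e) →
    (∀ e, p e ≤ 1) → 1 ≤ q → ∀ (E T F : Finset ι) (g v b : V) (f : ι), F ⊆ T → T ⊆ E →
    f ∈ E → f ∉ T → φ f = s(v, b) →
    TW φ p q E T F g v = TW φ p q E (insert f T) F g v + TW φ p q E (insert f T) (insert f F) g v +
      TW φ p q E (insert f T) (insert f F) g b

/-- KAP (70 lines), the ending rate. Proof. `E' = E \ insert f T`, `E \ T = insert f E'`. With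
`c = ∏_F p/2 ∏_{T \ F} (1-p) / S E 1 ≥ 0`:
`TW E T F g v ≤ c * S (insert f E') (ps F)` (`ind ≤ 1`)
`= c * ((1 - p f) * S E' (ps F) + p f * S E' (theta f * ps F (insert f ω))) ≤ c * S E' (ps F)`
(`theta ≤ 1`, `ps F` antitone) `≤ c * S E' (ps (insert f F))` (StPSI) and
`TW E (insert f T) (insert f F) g g = (p f / 2) * c * S E' (ps (insert f F))` (`ind φ g g = 1`). -/
def StKAP : Prop := ∀ (V ι : Type u) (φ : ι → Sym2 V) (p : ι → ℝ) (q : ℝ), (∀ e, 0 ≤ p e) →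
    (∀ e, p e ≤ 1) → 1 ≤ q → q ≤ 2 → ∀ (E T F : Finset ι) (g v : V) (f : ι), F ⊆ T → T ⊆ E →
    f ∈ E → f ∉ T →
    p f / 2 * TW φ p q E T F g v ≤ TW φ p q E (insert f T) (insert f F) g g

/-- CLO (80 lines). Closing edges is deleting them.
Proof. The configurations `ω ⊆ E` disjoint from `T` are the `ω ⊆ E \ T`, and
`wt φ p q E ω = (∏_{e ∈ T} (1 - p e)) * wt φ p q (E \ T) ω` for them (`E \ ω = T ∪ ((E \ T) \ ω)`).
The second part: divide by `S E 1`; the third: apply the first to `T` and to `T1`, `T \ T1` in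
`E \ T1`. -/
def StCLO : Prop := ∀ (V ι : Type u) (φ : ι → Sym2 V) (p : ι → ℝ) (q : ℝ), (∀ e, 0 ≤ p e) →
    (∀ e, p e ≤ 1) → 1 ≤ q → ∀ (E T : Finset ι), T ⊆ E →
    (∀ f : Finset ι → ℝ, S φ p q E (fun ω => nt T ω * f ω) =
      (∏ e ∈ T, (1 - p e)) * S φ p q (E \ T) f) ∧
    cl φ p q E T * S φ p q E (fun _ => 1) = (∏ e ∈ T, (1 - p e)) * S φ p q (E \ T) (fun _ => 1) ∧
    ∀ T1 ⊆ T, cl φ p q E T = cl φ p q E T1 * cl φ p q (E \ T1) (T \ T1)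

/-- PMO (100 lines), monotonicity in the edge probabilities.
Proof. `R ω = ∏_{e ∈ E} (if e ∈ ω then p e / p' e else (1 - p e) / (1 - p' e))` is nonnegative and
monotone (each factor is), and `wt φ p q E ω = R ω * wt φ p' q E ω` for `ω ⊆ E`. So
`ex p f = S p' (R f) / S p' R ≥ S p' f / S p' 1` by `S_fkg` (for `p'`). -/
def StPMO : Prop := ∀ (V ι : Type u) (φ : ι → Sym2 V) (p p' : ι → ℝ) (q : ℝ), (∀ e, 0 ≤ p' e) →
    (∀ e, p' e ≤ p e) → (∀ e, p e ≤ 1) → 1 ≤ q → ∀ (E : Finset ι),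
    (∀ e ∈ E, 0 < p' e ∧ p e < 1) → ∀ f : Finset ι → ℝ, (∀ ω, 0 ≤ f ω) → Monotone f →
    ex φ p' q E f ≤ ex φ p q E f

/-- LEA (120 lines), comparison at a leaf, from StPSI, StCLO, StPMO.
Proof. With `y = p/(1-p)`, by StCLO
`TW p T F g g = ∏_F (y/2) * cl p T * ex p (E \ T) (ps F)` (`ind φ g g = 1`; `1 - p e ≠ 0` on `T`). For
the antitone function `ps F` (`≥ 1`, `≤ ps F ∅`): `ex p (E \ T) (ps F) ≤ ex p' (E \ T) (ps F)` (StPMO
for `ps F ∅ - ps F ω`). `cl p T = cl p T1 * cl p (E \ T1) (T \ T1)` and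
`cl p (E \ T1) (T \ T1) ≤ cl p' (E \ T1) (T \ T1)` (StPMO for `1 - nt`). So
`cl p T * cl p' T1 ≤ cl p T1 * cl p' T`. `∏_F (y/2) = ∏_F (y/y') * ∏_F (y'/2)`. -/
def StLEA : Prop := ∀ (V ι : Type u) (φ : ι → Sym2 V) (p p' : ι → ℝ) (q : ℝ), (∀ e, 0 ≤ p' e) →
    (∀ e, p' e ≤ p e) → (∀ e, p e ≤ 1) → 1 ≤ q → q ≤ 2 → ∀ (E T F T1 : Finset ι) (g : V),
    (∀ e ∈ E, 0 < p' e ∧ p e < 1) → F ⊆ T → T ⊆ E → T1 ⊆ T →
    TW φ p q E T F g g * cl φ p' q E T1 ≤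
      (∏ e ∈ F, p e * (1 - p' e) / (p' e * (1 - p e))) * cl φ p q E T1 * TW φ p' q E T F g g

/-- TRA (120 lines), the main finite theorem (from StSTP, StKAP). `I T v m`: the state `(T, v)` can be
reached and `m` more ghost queries are allowed.
Proof. Strong induction on `(E \ T).card`, for all `v m F`. Write `W`, `W'` for `TW p`, `TW p'` (both
`≥ 0`). If `v = g`: hypothesis `h2`. If `m = 0`: `(1-κ)^0 = 1`. Otherwise `h3`:
(i) no edge of `E \ T` at `v ≠ g`: then `ind φ v g ω = 0` for all `ω ⊆ E \ T`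
(`not_conn_of_isolated`), so `W = 0`. (ii) an edge `f` at `v` with both successors in `I` and the
same `m`: StSTP for `p` and `p'` and three times the induction hypothesis. (iii) a ghost edge `f`,
`φ f = s(v, g)`, `2 κ ≤ p f`, `m = m' + 1`: the successor at `g` satisfies `W3 ≤ c W3'` by `h2` and
`W3 ≥ κ W` by StKAP, the others satisfy `Wi ≤ c Wi' + (1-κ)^m' Wi`, and `W1 + W2 = W - W3 ≤ (1-κ) W`. -/
def StTRA : Prop := ∀ (V ι : Type u) (φ : ι → Sym2 V) (p p' : ι → ℝ) (q : ℝ), (∀ e, 0 ≤ p e) →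
    (∀ e, p e ≤ 1) → (∀ e, 0 ≤ p' e) → (∀ e, p' e ≤ 1) → 1 ≤ q → q ≤ 2 →
    ∀ (E : Finset ι) (g : V) (κ c : ℝ), 0 ≤ κ → κ ≤ 1 → 0 ≤ c →
    ∀ I : Finset ι → V → ℕ → Prop, (∀ T v m, I T v m → T ⊆ E) →
    (∀ T m, I T g m → ∀ F ⊆ T, TW φ p q E T F g g ≤ c * TW φ p' q E T F g g) →
    (∀ T v m, I T v m → v ≠ g → m = 0 ∨ (∀ e ∈ E, e ∉ T → v ∉ φ e) ∨
      (∃ f ∈ E, f ∉ T ∧ ∃ b, φ f = s(v, b) ∧ I (insert f T) v m ∧ I (insert f T) b m) ∨
      (∃ f ∈ E, f ∉ T ∧ φ f = s(v, g) ∧ 2 * κ ≤ p f ∧ ∃ m', m = m' + 1 ∧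
        I (insert f T) v m' ∧ I (insert f T) g m')) →
    ∀ T v m, I T v m → ∀ F ⊆ T, TW φ p q E T F g v ≤
      c * TW φ p' q E T F g v + (1 - κ) ^ m * TW φ p q E T F g v

/-- RKM (80 lines). Identification of vertices lowers the rank, and the difference is monotone.
Proof. `Conn φ ω a b → Conn (cm φ σ) ω (σ a) (σ b)` (walk induction). By induction on `ω'`
(`Finset.induction_on`, resp. for `ω ⊆ ω'` induction on `ω' \ ω`) with `rk_insert_of_conn`,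
`rk_insert_of_not_conn` for `φ` and for `cm φ σ`: the increment for `cm φ σ` is at most that for `φ`. -/
def StRKM : Prop := ∀ (V V' ι : Type u) (φ : ι → Sym2 V) (σ : V → V'),
    (∀ ω : Finset ι, rk (cm φ σ) ω ≤ rk φ ω) ∧
    (∀ ω ω' : Finset ι, ω ⊆ ω' → rk φ ω - rk (cm φ σ) ω ≤ rk φ ω' - rk (cm φ σ) ω') ∧
    ∀ (ω : Set ι) (a b : V), Conn φ ω a b → Conn (cm φ σ) ω (σ a) (σ b)

/-- COL (80 lines). Proof. With `rk_spec` for `φ`, `U` and for `cm φ σ`, `U.image σ`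
(`ends (cm φ σ) ω ⊆ U.image σ`) it suffices that `kU (cm φ σ) (U.image σ) ω ≤ kU φ U ω`: the class of
`σ u` is the image of the class of `u` (well defined by StRKM part 3), so the image of
`U.image mk` under this map is the left set; `Finset.card_image_le`. -/
def StCOL : Prop := ∀ (V V' ι : Type u) (φ : ι → Sym2 V) (σ : V → V') (ω : Finset ι) (U : Finset V),
    ends φ ω ⊆ U → rk φ ω + (U.image σ).card ≤ rk (cm φ σ) ω + U.card

/-- CTR (60 lines). Identification of vertices raises the measure (from StRKM).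
Proof. `R ω = q ^ (rk φ ω - rk (cm φ σ) ω)` is `≥ 0`, monotone, and
`wt (cm φ σ) p q E ω = R ω * wt φ p q E ω`. So `ex (cm φ σ) f = S φ (R f) / S φ R`; `S_fkg`. -/
def StCTR : Prop := ∀ (V V' ι : Type u) (φ : ι → Sym2 V) (σ : V → V') (p : ι → ℝ) (q : ℝ),
    (∀ e, 0 ≤ p e) → (∀ e, p e ≤ 1) → 1 ≤ q → ∀ (E : Finset ι) (f : Finset ι → ℝ),
    (∀ ω, 0 ≤ f ω) → Monotone f → ex φ p q E f ≤ ex (cm φ σ) p q E f

/-- CND (170 lines). If all edges of `C` are loops after the identification `σ` then, given the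
configuration on `C`, the edge `e` is closed in `B ∪ C` with at least the probability which it has in
`B` after the identification.
Proof. For `γ ⊆ C` let `pγ e = 1` for `e ∈ γ`, `= p e` otherwise. Splitting `ω = ωB ∪ γ`,
`S φ p q (B ∪ C) h = ∑_{γ ⊆ C} (∏_γ p ∏_{C \ γ} (1-p)) * S φ pγ q (B ∪ γ) (h')` where
`h' ω = h ((ω ∩ B) ∪ γ)` (in `S φ pγ q (B ∪ γ)` the configurations which do not contain `γ` have weight
`0`). As `k` depends only on `ω ∩ C` it suffices, for every `γ`, that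
`ex φ pγ q (B ∪ γ) (1 - oe e) ≥ ex (cm φ σ) p q B (1 - oe e)`, i.e. that
`ex φ pγ q (B ∪ γ) (oe e) ≤ ex (cm φ σ) p q B (oe e)`. By StCTR it is at most
`ex (cm φ σ) pγ q (B ∪ γ) (oe e)`, and in `cm φ σ` the edges of `γ` are loops, they can be removed
(`theta = 1`: `ex_insert`, see `ex_loops` in `Pool.Agent.Helper30.RCU.Sand`), and `pγ = p` on `B`. -/
def StCND : Prop := ∀ (V V' ι : Type u) (φ : ι → Sym2 V) (σ : V → V') (p : ι → ℝ) (q : ℝ),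
    (∀ e, 0 ≤ p e) → (∀ e, p e ≤ 1) → 1 ≤ q → ∀ (B C : Finset ι), Disjoint B C →
    (∀ e ∈ C, ∃ a, (φ e).map σ = s(a, a)) → ∀ e ∈ B, ∀ k : Finset ι → ℝ, (∀ ω, 0 ≤ k ω) →
    (∀ ω, k ω = k (ω ∩ C)) →
    ex (cm φ σ) p q B (fun ω => 1 - oe e ω) * ex φ p q (B ∪ C) k ≤
      ex φ p q (B ∪ C) (fun ω => (1 - oe e ω) * k ω)

/-- MIX (100 lines, from StCND). Almost independence of far apart edges.
Proof. Let `x j = ex φ p q E (nt of {e i : i < j})`. For `j < k` put `A = {e j closed}`,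
`D = {e i closed for i < j}` (depends only on `ω ∩ C`, `C = E \ B j`, because `e i ∉ B j`), so with
`k = 1 - 1_D` in StCND: `alow * (1 - x j) ≤ ex (1_A (1 - 1_D)) = ex 1_A - x (j+1)`, hence
`x (j+1) ≤ ex 1_A - alow + alow * x j ≤ (aup - alow) + aup * x j`. Induction:
`x j ≤ aup ^ j + j * (aup - alow)`. -/
def StMIX : Prop := ∀ (V V' ι : Type u) (φ : ι → Sym2 V) (p : ι → ℝ) (q : ℝ),
    (∀ e, 0 ≤ p e) → (∀ e, p e ≤ 1) → 1 ≤ q → ∀ (E : Finset ι) (k : ℕ) (e : ℕ → ι)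
    (B : ℕ → Finset ι) (σ : ℕ → V → V') (alow aup : ℝ), 0 ≤ alow → alow ≤ aup → aup ≤ 1 →
    (∀ j < k, e j ∈ B j ∧ B j ⊆ E ∧ (∀ a ∈ E \ B j, ∃ z, (φ a).map (σ j) = s(z, z)) ∧
      alow ≤ ex (cm φ (σ j)) p q (B j) (fun ω => 1 - oe (e j) ω) ∧
      ex φ p q E (fun ω => 1 - oe (e j) ω) ≤ aup ∧ ∀ i < k, i ≠ j → e i ∉ B j) →
    cl φ p q E ((Finset.range k).image e) ≤ aup ^ k + k * (aup - alow)

/-- HLB (50 lines). Proof. FKG for the antitone functions `nt`: induction on `k`, with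
`ex (f g) ≥ ex f * ex g` for antitone `f, g ∈ [0,1]` (`ex_fkg` for `1 - f`, `1 - g`, or
`ex_fkg_anti`). -/
def StHLB : Prop := ∀ (V ι : Type u) (φ : ι → Sym2 V) (p : ι → ℝ) (q : ℝ),
    (∀ e, 0 ≤ p e) → (∀ e, p e ≤ 1) → 1 ≤ q → ∀ (E : Finset ι) (k : ℕ) (e : ℕ → ι) (b : ℝ),
    0 ≤ b → (∀ j < k, b ≤ ex φ p q E (fun ω => 1 - oe (e j) ω)) →
    b ^ k ≤ cl φ p q E ((Finset.range k).image e)

/-- DEN (170 lines), the density of the phase with a ghost field (convexity of the pressure), from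
StRKM. `A`: edges (probability `p` free, `p'` with ghost), `Y`: ghost edges (probability `t < 1`), `σ`
identifies the boundary vertices (and the ghost). `L = log (y/y')`.
Proof. For `ω ⊆ A` let `b ω = p^|ω| (1-p)^|A \ ω| q⁻¹^(rk (cm φ σ) ω)`,
`a ω = p'^|ω| (1-p')^|A \ ω| Γ ω`, `Γ ω = ∑_{γ ⊆ Y} t^|γ| (1-t)^|Y \ γ| q⁻¹^(rk (cm φ σ) (ω ∪ γ))`
(the marginal weight on `A`), so `(1-t)^|Y| ≤ Γ ω / q⁻¹^(rk (cm φ σ) ω) ≤ 1` (`γ = ∅`, and the rank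
is monotone). `Za = ∑ a`, `Zb = ∑ b`, `Z0 p = ∑_ω p^|ω| (1-p)^|A \ ω| q⁻¹^(rk φ ω)`.
Jensen (`log` concave): `log (Zb / Za) = log E_a[b/a] ≥ E_a[log (b/a)]` and
`log (b/a) ≥ L |ω| - |A| log ((1-p')/(1-p))`, so
`L E_a|ω| ≤ |A| log ((1-p')/(1-p)) + log Zb - log Za`.
From `rk (cm φ σ) ω ≤ rk φ ω ≤ rk (cm φ σ) ω + D`: `Zb ≤ q^D * Z0 p` and `Za ≥ (1-t)^|Y| * ∑ p'.. q⁻¹^(rk (cm φ σ) ω) ≥ (1-t)^|Y| * Z0 p'`
(`q⁻¹ ≤ 1`). Jensen again: `Z0 p' / Z0 p = E0_p[exp(-L|ω|)] ((1-p')/(1-p))^|A|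
≥ exp(-L E0_p|ω|) ((1-p')/(1-p))^|A|`. Combine. `E_a|ω| = ∑_{e ∈ A} ex (A ∪ Y) (oe e)`. -/
def StDEN : Prop := ∀ (V V' ι : Type u) (φ : ι → Sym2 V) (σ : V → V') (p p' t q : ℝ) (A Y : Finset ι)
    (pa pb : ι → ℝ) (D : ℕ), 0 < p' → p' < p → p < 1 → 0 ≤ t → t < 1 → 1 ≤ q → Disjoint A Y →
    (∀ e ∈ A, pa e = p' ∧ pb e = p) → (∀ e ∈ Y, pa e = t) →
    (∀ ω ⊆ A, rk φ ω ≤ rk (cm φ σ) ω + D) →
    Real.log (p * (1 - p') / (p' * (1 - p))) * ∑ e ∈ A, ex (cm φ σ) pa q (A ∪ Y) (oe e) ≤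
      Real.log (p * (1 - p') / (p' * (1 - p))) * (∑ e ∈ A, ex φ pb q A (oe e)) +
        Y.card * (-Real.log (1 - t)) + D * Real.log q

/-- REL (90 lines). Invariance under relabelling (compare `StTR` in `Pool.Agent.Helper30.RCU.Defs`,
proved in `Pool.Agent.Helper74.RCU.M_TR`, for general functions now).
Proof. The subsets of `E.map j` are the `ω.map j`, `ω ⊆ E`, with
`rk φ' (ω.map j) = rk φ ω` (induction on `ω`, `Conn φ' (ω.map j) (τ x) (τ y) ↔ Conn φ ω x y`). -/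
def StREL : Prop := ∀ (V V' ι ι' : Type u) (j : ι ↪ ι') (τ : V ↪ V') (φ : ι → Sym2 V)
    (φ' : ι' → Sym2 V') (p : ι → ℝ) (p' : ι' → ℝ) (q : ℝ),
    (∀ e, φ' (j e) = (φ e).map τ) → (∀ e, p' (j e) = p e) → ∀ (E : Finset ι) (f : Finset ι' → ℝ),
    ex φ' p' q (E.map j) f = ex φ p q E (fun ω => f (ω.map j)) ∧
    ∀ (ω : Finset ι) (x y : V), Conn φ' ((ω.map j : Finset ι') : Set ι') (τ x) (τ y) ↔
      Conn φ (ω : Set ι) x y

/-- CON (130 lines). Edges of probability one can be contracted.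
Proof. Only the configurations `ω ∪ W`, `ω ⊆ E`, have nonzero weight, and
`rk φ (ω ∪ W) = rk (cm φ σ) ω + rk φ W` (induction on `ω`: `Conn φ (ω ∪ W) a b ↔
Conn (cm φ σ) ω (σ a) (σ b)`, the second claim; walks, for `←` lift each step, using
`σ u = σ v → Conn φ W u v`). Numerator and denominator of `ex φ p q (E ∪ W)` are `q⁻¹ ^ rk φ W` times
those of `ex (cm φ σ) p q E`. -/
def StCON : Prop := ∀ (V V' ι : Type u) (φ : ι → Sym2 V) (σ : V → V') (p : ι → ℝ) (q : ℝ),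
    (∀ e, 0 ≤ p e) → (∀ e, p e ≤ 1) → 1 ≤ q → ∀ (E W : Finset ι), Disjoint E W →
    (∀ e ∈ W, p e = 1) → (∀ u v : V, σ u = σ v ↔ Conn φ (W : Set ι) u v) →
    (∀ f : Finset ι → ℝ, ex φ p q (E ∪ W) f = ex (cm φ σ) p q E (fun ω => f (ω ∪ W))) ∧
    ∀ (ω : Finset ι) (a b : V), Conn φ ((ω ∪ W : Finset ι) : Set ι) a b ↔
      Conn (cm φ σ) (ω : Set ι) (σ a) (σ b)

end Pool.Agent.Helper1.UQ
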