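import Pool.Agent.Helper1.UQ.St1
import Pool.Agent.Helper1.UQ.Bas

/-!
# Project UQ, part 2: statements about locally finite graphs

`Bas.lean`: `mem_te`, `mem_bd`, `mem_bl`, `te_mono`, `pr_nonneg`, `pr_le_one`, `sg_some_of_mem`,
`sg_some_of_notMem`, `sg_none`, `sg_sg`, `cm_pI`, `ex_congr_p`. `ex_loops` (removal of loops) is in
`Pool.Agent.Helper30.RCU.Sand`, `ex_union_mono`, `ex_union_anti` in `Base`, `dist_iso` in `Geo`.
Recall `eD G p t q I A U f = ex (pI G I) (pr G p t) q (A.disjSum U) f` and `GE G = G.edgeSet ⊕ V`.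
-/

set_option autoImplicit false

open Finset

namespace Pool.Agent.Helper1.UQ

open Classical Pool.Agent.Helper30.RCU

universe u

/-- `y / y'` for the odds of two probabilities -/
noncomputable def rr (p p' : ℝ) : ℝ := p * (1 - p') / (p' * (1 - p))

/-- MDW (60 lines, from StCTR). Domain monotonicity: smaller domain, larger measure.
Proof. `eD I' A' U' f ≤ ex (cm (pI G I') (sg I)) .. (A'.disjSum U') f` (StCTR) `= ex (pI G I) ..`
(`cm_pI`). `A'.disjSum U' = A.disjSum U ∪ L` where the edges in `L` (the others) have no end in `I`, so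
both ends are `none` after `sg I` (also a ghost edge `s(some v, none)` with `v ∉ I`): loops, and `f`
does not depend on them: `ex_loops`. -/
def StMDW : Prop := ∀ (V : Type u) (G : SimpleGraph V) (p t q : ℝ), 0 ≤ p → p ≤ 1 → 0 ≤ t → t ≤ 1 →
    1 ≤ q → ∀ (I I' : Finset V) (A A' : Finset G.edgeSet) (U U' : Finset V), I ⊆ I' → A ⊆ A' →
    (∀ e ∈ A', e ∉ A → ∀ v ∈ (e : Sym2 V), v ∉ I) → U ⊆ U' → (∀ v ∈ U', v ∉ U → v ∉ I) →
    ∀ f : Finset (GE G) → ℝ, (∀ ω, 0 ≤ f ω) → Monotone f →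
    (∀ e ∈ A', e ∉ A → ∀ ω, f (insert (Sum.inl e) ω) = f ω) →
    (∀ v ∈ U', v ∉ U → ∀ ω, f (insert (Sum.inr v) ω) = f ω) →
    eD G p t q I' A' U' f ≤ eD G p t q I A U f

/-- BND (120 lines, from StMDW, StCTR, StRKM). Bounds and monotonicity.
Proof. `0 ≤ ex ≤ 1` for `oe`; `wI`, `hI` antitone in `I`: StMDW with `A = insert e (te G I)`,
`U = ∅` resp. `U = I`; `fI` monotone in `I`: `ex_union_mono`; `fI I ≤ fI (I ∪ I') ≤ wI (I ∪ I') ≤ wI I'`
(the middle one: StCTR with `sg`, then more edges); `h8 ≤ hI`: `ciInf_le`. `th` antitone in `I`: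
pointwise `ind (pI G I') (some x) none ≤ ind (pI G I) (some x) none` (StRKM part 3 with
`cm_pI`, `sg I (some x) = some x` for `x ∈ I`), then StMDW-like step; insensitive: a loop does not
change `Conn` (`conn_insert`). -/
def StBND : Prop := ∀ (V : Type u) (G : SimpleGraph V), (∀ v, (G.neighborSet v).Finite) →
    ∀ p t q : ℝ, 0 ≤ p → p ≤ 1 → 0 ≤ t → t ≤ 1 → 1 ≤ q →
    (∀ (I : Finset V) (e : G.edgeSet), 0 ≤ fI G p q I e ∧ wI G p q I e ≤ 1 ∧ 0 ≤ hI G p t q I e ∧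
      hI G p t q I e ≤ 1 ∧ wI G p q I e ≤ hI G p t q I e) ∧
    (∀ (I I' : Finset V) (e : G.edgeSet), fI G p q I e ≤ wI G p q I' e) ∧
    (∀ (I I' : Finset V) (e : G.edgeSet), I ⊆ I' → wI G p q I' e ≤ wI G p q I e ∧
      hI G p t q I' e ≤ hI G p t q I e ∧ fI G p q I e ≤ fI G p q I' e) ∧
    (∀ (I I' : Finset V) (x : V), I ⊆ I' → x ∈ I → th G p q I' x ≤ th G p q I x) ∧
    ∀ e : G.edgeSet, (∀ I, fI G p q I e ≤ f8 G p q e) ∧ (∀ I, w8 G p q e ≤ wI G p q I e) ∧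
      (∀ I, h8 G p t q e ≤ hI G p t q I e) ∧ 0 ≤ f8 G p q e ∧ f8 G p q e ≤ w8 G p q e ∧
      w8 G p q e ≤ 1 ∧ 0 ≤ h8 G p t q e ∧ h8 G p t q e ≤ 1 ∧
      (∀ ε > 0, ∃ I0 : Finset V, ∀ I, I0 ⊆ I → wI G p q I e ≤ w8 G p q e + ε ∧
        hI G p t q I e ≤ h8 G p t q e + ε ∧ f8 G p q e - ε ≤ fI G p q I e)

/-- ISO (120 lines, from StREL). Invariance under automorphisms.
Proof. StREL with `j = Sum.map g.mapEdgeSet g` (an embedding `GE G ↪ GE G`), `τ = Option.map g`,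
`te G (I.map g) = (te G I).map g`, `sg (I.map g) (Option.map g o) = Option.map g (sg I o)`; the
infima over all `I` agree because `I ↦ I.map g` is a bijection. Balls: `dist_iso`. -/
def StISO : Prop := ∀ (V : Type u) (G : SimpleGraph V), G.Connected →
    (∀ v, (G.neighborSet v).Finite) → ∀ (p t q : ℝ), 1 ≤ q → ∀ (g : G ≃g G) (e : G.edgeSet),
    w8 G p q (g.mapEdgeSet e) = w8 G p q e ∧ h8 G p t q (g.mapEdgeSet e) = h8 G p t q e ∧
    f8 G p q (g.mapEdgeSet e) = f8 G p q e ∧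
    (∀ (x : V) (n : ℕ), wI G p q (bl G (g x) n) (g.mapEdgeSet e) = wI G p q (bl G x n) e ∧
      hI G p t q (bl G (g x) n) (g.mapEdgeSet e) = hI G p t q (bl G x n) e ∧
      th G p q (bl G (g x) n) (g x) = th G p q (bl G x n) x) ∧
    ∀ v : V, (te G {g v}).card = (te G {v}).card

/-- AMN (150 lines, from StDEN, StCOL, StBND, StISO). The phase with a ghost field is almost free
(amenability). [helper86]
Proof. For `I` nonempty: StDEN with `φ = ph G`, `σ = sg I`, `A = (te G I).disjSum ∅`,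
`Y = (∅ : Finset _).disjSum I`, `D = (bd G I).card` (StCOL with `U = ` all `some v`, `v` an end of an
edge of `te G I` or in `I`, and `none`: `U.card - (U.image (sg I)).card` is the number of vertices
outside `I` adjacent to `I`, at most `(bd G I).card`):
`L ∑_{te I} hI I ≤ L ∑_{te I} fI I + |I| (-log (1-t)) + |bd I| log q`. So with `u e = h8 e - f8 e`:
`L ∑_{te I} u ≤ |I| (-log (1-t)) + |bd I| log q`, `|u| ≤ 1`. Double counting:
`∑_{v ∈ I} ∑_{e ∈ te {v}} u e = 2 ∑_{te I} u - ∑_{bd I} u`, the left side is `|I| ∑_{te {o}} u` by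
transitivity. Divide by `|I|` and let `|bd I| / |I| → 0`. -/
def StAMN : Prop := ∀ (V : Type u) (G : SimpleGraph V), G.Connected →
    (∀ v, (G.neighborSet v).Finite) → (∀ x y : V, ∃ g : G ≃g G, g x = y) → Amen G →
    ∀ (p p' t q : ℝ), 0 < p' → p' < p → p < 1 → 0 < t → t < 1 → 1 ≤ q → ∀ o : V,
    Real.log (rr p p') * (∑ e ∈ te G {o}, (h8 G p' t q e - f8 G p q e)) ≤ 2 * (-Real.log (1 - t))

/-- TRG (250 lines, from StTRA, StLEA, StPSI, StMDW..). The trail theorem in a ball. [helper63]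
Domain `Λ = bl G x n`, ghost edges at the vertices of `Λ` with distance `≥ R` from `x`, `s v` an edge
at `v`, `d` bounds the degrees.
Proof. StTRA with `φ = pI G Λ`, `g = none`, `κ = t / 2`, `p ↦ pr G p t`, `p' ↦ pr G p' t`,
`c = rr p p' ^ (d * ((bl G x R).card + M + 1)) * η`, and the invariant `I T o m`: there is a finite
`W ⊆ Λ` (visited vertices), `x ∈ W`, such that `T ⊆ E`; `o = none` or `o = some v`, `v ∈ W`; for
`u ∈ W` and `j ≤ dist x u` there is `u' ∈ W` with `dist x u' = j`; every edge of `T` has an end in `W`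
(`Sum.inl e ∈ T → ∃ v ∈ e, v ∈ W`, `Sum.inr v ∈ T → v ∈ W`); for `u ∈ W` with `R ≤ dist x u`:
`Sum.inr u ∈ T` or `o = some u`; for `u ∈ W` with `dist x u < R`: `Sum.inl (s u) ∈ T` or `o = some u`;
if `o = none` there is `u ∈ W` with `R ≤ dist x u`; and (number of `Sum.inr v` in `T`) `+ m = M`.
Next edge at `some v`: the ghost edge if `R ≤ dist x v` and it is not in `T` (if `m = 0` nothing to do);
else `s v` if not in `T`; else any edge of `te G Λ` at `v` not in `T`; if there is none then no edge of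
`E \ T` is at `some v`. An edge `v w` leads to `some w` if `w ∈ Λ` (add `w` to `W`,
`dist x w ≤ dist x v + 1`) and to `none` otherwise (then `dist x v ≥ n - 1 ≥ R`).
Leaf (`o = none`): `u j ∈ W` with `dist x (u j) = j * ρ`, so `T1 = {s (u j) : j < k} ⊆ T`; StLEA with
the hypothesis; `∏_{e ∈ F} (..) ≤ rr p p' ^ (number of Sum.inl in T)` (`rr ≥ 1`; factor `1` for ghost
edges), `T` has at most `d * W.card` edges `Sum.inl`, and `W.card ≤ (bl G x R).card + M`.
Start: `T = ∅`, `W = {x}`, `TW ∅ ∅ (some x) = eD .. (ind ..)` and `TW p' .. ≤ 1`. -/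
def StTRG : Prop := ∀ (V : Type u) (G : SimpleGraph V), G.Connected →
    (∀ v, (G.neighborSet v).Finite) → ∀ (p p' t q : ℝ), 0 < p' → p' < p → p < 1 → 0 < t → t < 1 →
    1 ≤ q → q ≤ 2 → ∀ (x : V) (n R M d k ρ : ℕ), 0 < R → R < n → (∀ v, (te G {v}).card ≤ d) →
    ∀ s : V → G.edgeSet, (∀ v, v ∈ (s v : Sym2 V)) → ∀ η : ℝ, 0 ≤ η →
    (∀ j < k, j * ρ < R) →
    (∀ u : ℕ → V, (∀ j < k, G.dist x (u j) = j * ρ) →
      cl (pI G (bl G x n)) (pr G p t) q
        ((te G (bl G x n)).disjSum ((bl G x n).filter fun v => R ≤ G.dist x v))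
        ((range k).image fun j => Sum.inl (s (u j))) ≤
      η * cl (pI G (bl G x n)) (pr G p' t) q
        ((te G (bl G x n)).disjSum ((bl G x n).filter fun v => R ≤ G.dist x v))
        ((range k).image fun j => Sum.inl (s (u j)))) →
    eD G p t q (bl G x n) (te G (bl G x n)) ((bl G x n).filter fun v => R ≤ G.dist x v)
        (ind (pI G (bl G x n)) (some x) none) * (1 - (1 - t / 2) ^ M) ≤
      rr p p' ^ (d * ((bl G x R).card + M + 1)) * η

/-- CLG (120 lines, from StMIX, StBND). Upper bound for the closed probability, high phase.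
Proof. `nt` is antitone, so `cl (te Λ ⊔ U) ≤ cl (te Λ ⊔ ∅)` (`ex_union_anti`), and there
`pr G p t` may be replaced by `pr G p 0` (`ex_congr_p`). StMIX with `E = (te G Λ).disjSum ∅`,
`B j = (te G (bl G (u j) m)).disjSum ∅`, `σ j = sg (bl G (u j) m)`; `bl G (u j) m ⊆ Λ` so
`cm (pI G Λ) (σ j) = pI G (bl G (u j) m)` (`cm_pI`); the edges of `E` not in `B j` have no end in
`bl G (u j) m`, so they are loops at `none`. `ex (1 - oe) = 1 - ex oe = 1 - wI` (`insert` of an edge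
of `te`; `u j` is in its own ball because `1 ≤ m`). `s (u i)` has no end in `bl G (u j) m` for
`i ≠ j` because `dist (u i) (u j) ≥ ρ ≥ m + 1`. -/
def StCLG : Prop := ∀ (V : Type u) (G : SimpleGraph V), G.Connected →
    (∀ v, (G.neighborSet v).Finite) → ∀ (p t q : ℝ), 0 < p → p < 1 → 0 ≤ t → t ≤ 1 → 1 ≤ q →
    ∀ (x : V) (n k m ρ : ℕ) (U : Finset V) (s : V → G.edgeSet), (∀ v, v ∈ (s v : Sym2 V)) →
    ∀ (alow aup : ℝ), 0 ≤ alow → alow ≤ aup → aup ≤ 1 → 1 ≤ m → m + 1 ≤ ρ → k * ρ + m ≤ n →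
    ∀ u : ℕ → V, (∀ j < k, G.dist x (u j) = j * ρ) →
    (∀ j < k, alow ≤ 1 - wI G p q (bl G (u j) m) (s (u j)) ∧
      1 - wI G p q (bl G x n) (s (u j)) ≤ aup) →
    cl (pI G (bl G x n)) (pr G p t) q ((te G (bl G x n)).disjSum U)
      ((range k).image fun j => Sum.inl (s (u j))) ≤ aup ^ k + k * (aup - alow)

/-- CLH (100 lines, from StHLB, StMDW). Lower bound for the closed probability, low phase.
Proof. StHLB; `ex (1 - oe) = 1 - ex oe`, and
`ex (te Λ ⊔ U) (oe e) ≤ ex (te Λ ⊔ (U ∪ bl G (u j) m)) (oe e) ≤ hI (bl G (u j) m) e` for `e = s (u j)`: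
more edges, then StMDW with `I = bl G (u j) m ⊆ Λ`. -/
def StCLH : Prop := ∀ (V : Type u) (G : SimpleGraph V), G.Connected →
    (∀ v, (G.neighborSet v).Finite) → ∀ (p t q : ℝ), 0 < p → p < 1 → 0 ≤ t → t ≤ 1 → 1 ≤ q →
    ∀ (x : V) (n k m ρ : ℕ) (U : Finset V) (s : V → G.edgeSet), (∀ v, v ∈ (s v : Sym2 V)) →
    ∀ (b : ℝ), 0 ≤ b → 1 ≤ m → k * ρ + m ≤ n →
    ∀ u : ℕ → V, (∀ j < k, G.dist x (u j) = j * ρ) →
    (∀ j < k, b ≤ 1 - hI G p t q (bl G (u j) m) (s (u j))) →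
    b ^ k ≤ cl (pI G (bl G x n)) (pr G p t) q ((te G (bl G x n)).disjSum U)
      ((range k).image fun j => Sum.inl (s (u j)))

/-- EPA (50 lines). Proof. Choose `k` with `(1 / (1 + δ)) ^ k ≤ η / 2` and
`err = (η / 2) * δ ^ k / (k + 1)`. `a * (1 + δ) ≤ a + δ` because `a ≤ 1`, so
`a ^ k ≤ (a + δ) ^ k * (1 / (1 + δ)) ^ k`, and `k * err ≤ (η / 2) * δ ^ k ≤ (η / 2) * (a + δ) ^ k`. -/
def StEPA : Prop := ∀ δ η : ℝ, 0 < δ → 0 < η → ∃ k : ℕ, ∃ err : ℝ, 0 < k ∧ 0 < err ∧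
    ∀ a x : ℝ, 0 ≤ a → a ≤ 1 → x ≤ err → a ^ k + k * x ≤ η * (a + δ) ^ k

/-- EPB (50 lines). Proof. `t = 1 / (4 * (N + 2))`, `M = ⌈2 / t⌉₊ = 8 * (N + 2)`:
`(1 - t/2) ^ M ≤ exp (- M t / 2) = exp (-1) ≤ 1/2`, `-log (1-t) ≤ t / (1 - t) ≤ 2 t` and
`2 t (N + M + 1) = 2 t (N + 1) + 4 ≤ 6`. -/
def StEPB : Prop := ∀ N : ℕ, ∃ t : ℝ, ∃ M : ℕ, 0 < t ∧ t < 1 ∧ (1 - t / 2) ^ M ≤ 1 / 2 ∧
    -Real.log (1 - t) * ((N : ℝ) + M + 1) ≤ 6

/-- ZER (200 lines, from StAMN, StTRG, StCLG, StCLH, StEPA, StEPB, StBND, StISO): if the free and the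
wired measure differ then the wired measure does not percolate.
Proof. `d = (te G {o}).card` bounds all degrees (StISO and transitivity), `d > 0`.
`γ = ∑_{te {o}} (w8 - f8) > 0`, `δ0 = γ / (2 d)`, `c0 = 4 / γ`, `K0 = exp (6 c0 d)`,
`η = ε / (2 K0)`. StEPA with `δ = δ0 / 2`, `η`: `k`, `err`. Choose `m ≥ 1` with
`wI (bl G o m) e ≤ w8 e + err` for all `e ∈ te G {o}` (StBND; every finite set is in a ball).
`ρ = m + 1`, `R = k * ρ`, `N = (bl G o R).card`. StEPB: `t`, `M`. `L = c0 * (-log (1-t)) > 0`, `p'` with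
odds `y' = y exp (-L)`, so `0 < p' < p` and `log (rr p p') = L`. StAMN: `∑ (h8 - f8) ≤ 2 / c0 = γ / 2`,
so some `e ∈ te G {o}` has `h8 p' t e ≤ w8 e - δ0`. For every `v` choose an automorphism with
`g o = v` and `s v = g e`. Choose `m2 ≥ 1` with `hI p' t (bl G o m2) e ≤ h8 e + δ0 / 2`, and
`n = R + m + m2 + 1`, `x = o`. For `u` as in StTRG: StCLG with `aup = 1 - w8 e`,
`alow = 1 - wI (bl G o m) e` (StISO), StCLH with `b = aup + δ0 / 2`; StEPA gives the hypothesis of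
StTRG. So `eD (ind) * (1/2) ≤ exp (L * d * (N + M + 1)) η ≤ K0 η`, i.e. `eD (ind) ≤ ε`, and
`th (bl G o n) o ≤ eD (ind)` (more edges: ghost edges; `ex_congr_p`, `ex_union_mono`). -/
def StZER : Prop := ∀ (V : Type u) (G : SimpleGraph V), G.Connected →
    (∀ v, (G.neighborSet v).Finite) → (∀ x y : V, ∃ g : G ≃g G, g x = y) → Amen G →
    ∀ (p q : ℝ), 0 < p → p < 1 → 1 ≤ q → q ≤ 2 → ∀ o : V,
    (∃ e ∈ te G {o}, f8 G p q e < w8 G p q e) →
    ∀ ε > 0, ∃ n : ℕ, 0 < n ∧ th G p q (bl G o n) o ≤ ε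

/-- CVT (110 lines, from StCTR, StREL). Translation to the notation of helper30.
Proof. (free) both sides are relabellings (StREL) of the expectation over `F` with edge type
`G.edgeSet`. (wired) StCTR for `φW G` with `σ v = if v ∈ I then some v else none`: every `v ∈ BF G F`
is not in `I` (all edges at a vertex of `I` are in `te G I`), so after `σ` the wiring edges are loops
at `none` and can be removed (`ex_loops`), then relabel. For the connection: pointwise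
`ind (φW G) x z ≤ ind (cm (φW G) σ) (some x) none` (StRKM part 3; `σ z = none`). -/
def StCVT : Prop := ∀ (V : Type u) (G : SimpleGraph V), (∀ v, (G.neighborSet v).Finite) →
    ∀ (p q : ℝ), 0 ≤ p → p ≤ 1 → 1 ≤ q → ∀ (I : Finset V) (e : G.edgeSet), e ∈ te G I →
    ex (φW G) (pW G p) q (Lf G (te G I)) (fun ω => if Sum.inl e ∈ ω then 1 else 0) = fI G p q I e ∧
    ex (φW G) (pW G p) q (Lf G (te G I) ∪ Rt G (BF G (te G I)))
      (fun ω => if Sum.inl e ∈ ω then 1 else 0) ≤ wI G p q I e ∧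
    ∀ x ∈ I, ∀ z ∈ BF G (te G I), ex (φW G) (pW G p) q (Lf G (te G I) ∪ Rt G (BF G (te G I)))
      (ind (φW G) x z) ≤ th G p q I x

/-- The interface to the infinite-volume part (helper88). -/
def StGAP : Prop := ∀ (V : Type u) (G : SimpleGraph V), G.Connected →
    (∀ v, (G.neighborSet v).Finite) → (∀ x y : V, ∃ g : G ≃g G, g x = y) → Amen G →
    ∀ (p q : ℝ), 0 ≤ p → p ≤ 1 → 1 ≤ q → q ≤ 2 → ∀ (e : G.edgeSet) (ε : ℝ), 0 < ε →
    ∃ F : Finset G.edgeSet, e ∈ F ∧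
      ex (φW G) (pW G p) q (Lf G F ∪ Rt G (BF G F)) (fun ω => if Sum.inl e ∈ ω then 1 else 0) -
        ex (φW G) (pW G p) q (Lf G F) (fun ω => if Sum.inl e ∈ ω then 1 else 0) ≤ ε

/-- TRV (50 lines). The cases `p = 0` and `p = 1` of StGAP, with `F = {e}`.
Proof. `p = 0`: the wired expectation of the indicator is `0` (the configurations containing
`Sum.inl e` have weight `0`) and the free one is `≥ 0`. `p = 1`: the free one is `1` (the
configurations not containing `Sum.inl e` have weight `0`), the wired one `≤ 1`. -/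
def StTRV : Prop := ∀ (V : Type u) (G : SimpleGraph V) (p q : ℝ), (p = 0 ∨ p = 1) → 1 ≤ q →
    ∀ (e : G.edgeSet),
      ex (φW G) (pW G p) q (Lf G {e} ∪ Rt G (BF G {e})) (fun ω => if Sum.inl e ∈ ω then 1 else 0) -
        ex (φW G) (pW G p) q (Lf G {e}) (fun ω => if Sum.inl e ∈ ω then 1 else 0) ≤ 0

end Pool.Agent.Helper1.UQ
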