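import Pool.Agent.Helper1.UQ.St2
import Pool.Agent.Helper86.UQ.St5

/-! # Project UQ: if the free and the wired measure differ there is no wired percolation -/

set_option autoImplicit false

open Finset

namespace Pool.Agent.Helper1.UQ

open Classical Pool.Agent.Helper30.RCU

universe u

/-- every finite set is in a ball -/
lemma sub_bl {V : Type u} {G : SimpleGraph V} (hG : G.Connected)
    (hlf : ∀ v, (G.neighborSet v).Finite) (x : V) (J : Finset V) :
    ∃ m : ℕ, 1 ≤ m ∧ J ⊆ bl G x m := by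
  refine ⟨J.sup (fun v => G.dist x v) + 1, by omega, fun v hv => ?_⟩
  rw [mem_bl hG hlf]
  exact Nat.lt_succ_of_le (Finset.le_sup (f := fun v => G.dist x v) hv)

/-- a smaller edge probability with prescribed quotient of the odds -/
lemma exists_pp {p L : ℝ} (hp0 : 0 < p) (hp1 : p < 1) (hL : 0 < L) :
    ∃ p' : ℝ, 0 < p' ∧ p' < p ∧ p * (1 - p') / (p' * (1 - p)) = Real.exp L := by
  have hE0 : 0 < Real.exp (-L) := Real.exp_pos _
  have hE1 : Real.exp (-L) < 1 := by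
    rw [Real.exp_lt_one_iff]; linarith
  have hEE : Real.exp (-L) * Real.exp L = 1 := by
    rw [← Real.exp_add]; simp
  set E := Real.exp (-L) with hE
  have hD : 0 < 1 - p + p * E := by nlinarith [mul_pos hp0 hE0]
  refine ⟨p * E / (1 - p + p * E), by positivity, ?_, ?_⟩
  · rw [div_lt_iff₀ hD]
    have h1 : 0 < p * (1 - p) * (1 - E) := by
      have := mul_pos (mul_pos hp0 (sub_pos.mpr hp1)) (sub_pos.mpr hE1)
      exact this
    nlinarith
  · have h2 : 1 - p * E / (1 - p + p * E) = (1 - p) / (1 - p + p * E) := by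
      field_simp
      ring
    have h3 : (1 - p) ≠ 0 := by linarith
    rw [h2]
    have h4 : p * ((1 - p) / (1 - p + p * E)) / (p * E / (1 - p + p * E) * (1 - p)) = 1 / E := by
      field_simp
    rw [h4]
    field_simp
    linarith [hEE]

theorem hZER (hSPE : Pool.Agent.Helper86.UQ.StSPE.{u}) (hTRG : StTRG.{u}) (hCLG : StCLG.{u})
    (hCLH : StCLH.{u}) (hEPA : StEPA) (hEPB : StEPB) (hBND : StBND.{u}) (hISO : StISO.{u}) :
    StZER.{u} := by
  intro V G hG hlf htr ham p q hp0 hp1 hq1 hq2 o hex ε hε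
  obtain ⟨e1, he1, hlt⟩ := hex
  have hd : 0 < (te G {o}).card := Finset.card_pos.mpr ⟨e1, he1⟩
  obtain ⟨d, hdd⟩ : ∃ z : ℕ, z = (te G {o}).card := ⟨_, rfl⟩
  rw [← hdd] at hd
  have hdR : (0 : ℝ) < d := by exact_mod_cast hd
  -- bounds for `p`, `t = 0`
  have hB0 := hBND V G hlf p 0 q hp0.le hp1.le le_rfl zero_le_one hq1
  have hfw : ∀ e : G.edgeSet, f8 G p q e ≤ w8 G p q e := fun e => (hB0.2.2.2.2 e).2.2.2.2.1
  have hf0 : ∀ e : G.edgeSet, 0 ≤ f8 G p q e := fun e => (hB0.2.2.2.2 e).2.2.2.1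
  have hw1 : ∀ e : G.edgeSet, w8 G p q e ≤ 1 := fun e => (hB0.2.2.2.2 e).2.2.2.2.2.1
  have hww : ∀ (e : G.edgeSet) (I : Finset V), w8 G p q e ≤ wI G p q I e :=
    fun e => (hB0.2.2.2.2 e).2.1
  have hwI1 : ∀ (I : Finset V) (e : G.edgeSet), wI G p q I e ≤ 1 := fun I e => (hB0.1 I e).2.1
  obtain ⟨γ, hγd⟩ : ∃ z : ℝ, z = ∑ e ∈ te G {o}, (w8 G p q e - f8 G p q e) := ⟨_, rfl⟩
  have hγ : 0 < γ := by
    rw [hγd]
    refine Finset.sum_pos' (fun e _ => ?_) ⟨e1, he1, ?_⟩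
    · have := hfw e; linarith
    · linarith
  obtain ⟨c0, hc0⟩ : ∃ z : ℝ, z = 4 / γ := ⟨_, rfl⟩
  have hc0p : 0 < c0 := by rw [hc0]; positivity
  obtain ⟨K0, hK0⟩ : ∃ z : ℝ, z = Real.exp (6 * c0 * d) := ⟨_, rfl⟩
  have hK0p : 0 < K0 := by rw [hK0]; exact Real.exp_pos _
  obtain ⟨δ0, hδ0⟩ : ∃ z : ℝ, z = γ / (2 * (d : ℝ)) := ⟨_, rfl⟩
  have hδ0p : 0 < δ0 := by rw [hδ0]; positivity
  obtain ⟨η, hη⟩ : ∃ z : ℝ, z = ε / (2 * K0) := ⟨_, rfl⟩
  have hηp : 0 < η := by rw [hη]; positivity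
  obtain ⟨k, err, hk, herr, hEP⟩ := hEPA (δ0 / 2) η (by positivity) hηp
  -- the radius `m`
  obtain ⟨m, hm1, hm⟩ : ∃ m : ℕ, 1 ≤ m ∧ ∀ e ∈ te G {o},
      wI G p q (bl G o m) e ≤ w8 G p q e + err := by
    choose J hJ using fun e : G.edgeSet => (hB0.2.2.2.2 e).2.2.2.2.2.2.2.2 err herr
    obtain ⟨m, hm1, hm⟩ := sub_bl hG hlf o ((te G {o}).biUnion J)
    refine ⟨m, hm1, fun e he => ?_⟩
    exact (hJ e (bl G o m) ((Finset.subset_biUnion_of_mem J he).trans hm)).1
  obtain ⟨ρ, hρ⟩ : ∃ z : ℕ, z = m + 1 := ⟨_, rfl⟩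
  obtain ⟨R, hR⟩ : ∃ z : ℕ, z = k * ρ := ⟨_, rfl⟩
  have hR0 : 0 < R := by rw [hR]; exact Nat.mul_pos hk (by omega)
  obtain ⟨N, hN⟩ : ∃ z : ℕ, z = (bl G o R).card := ⟨_, rfl⟩
  obtain ⟨t, M, ht0, ht1, htM, htL⟩ := hEPB N
  have hlog : 0 < -Real.log (1 - t) := by
    have := Real.log_neg (show (0 : ℝ) < 1 - t by linarith) (by linarith)
    linarith
  obtain ⟨L, hL⟩ : ∃ z : ℝ, z = c0 * (-Real.log (1 - t)) := ⟨_, rfl⟩
  have hLp : 0 < L := by rw [hL]; exact mul_pos hc0p hlog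
  obtain ⟨p', hp'0, hp'p, hrr⟩ := exists_pp hp0 hp1 hLp
  -- the special edge
  obtain ⟨e, he, hspe⟩ := hSPE V G hlf htr ham p p' t q γ hp'0 hp'p hp1 ht0 ht1 hq1 hγ o
    (by rw [hγd, Finset.sum_sub_distrib]; linarith) (by rw [hrr, Real.log_exp, hL, hc0])
  have hspe' : h8 G p' t q e ≤ w8 G p q e - δ0 := by rw [hδ0, hdd]; exact hspe
  -- bounds for `p'`, `t`
  have hB1 := hBND V G hlf p' t q hp'0.le (by linarith) ht0.le ht1.le hq1
  -- translations
  choose a ha using fun v : V => htr o v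
  obtain ⟨s, hs⟩ : ∃ z : V → G.edgeSet, z = fun v => (a v).mapEdgeSet e := ⟨_, rfl⟩
  have hoe : o ∈ (e : Sym2 V) := by
    rw [mem_te hlf] at he
    obtain ⟨v, hv, hvo⟩ := he
    rw [Finset.mem_singleton] at hvo
    rwa [hvo] at hv
  have hsv : ∀ v, v ∈ (s v : Sym2 V) := by
    intro v
    have h1 : ((s v : G.edgeSet) : Sym2 V) = (e : Sym2 V).map (a v) := by rw [hs]; rfl
    rw [h1, Sym2.mem_map]
    exact ⟨o, hoe, ha v⟩
  obtain ⟨m2, hm21, hm2⟩ : ∃ m2 : ℕ, 1 ≤ m2 ∧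
      hI G p' t q (bl G o m2) e ≤ h8 G p' t q e + δ0 / 2 := by
    obtain ⟨J, hJ⟩ := (hB1.2.2.2.2 e).2.2.2.2.2.2.2.2 (δ0 / 2) (by positivity)
    obtain ⟨m2, hm21, hm2⟩ := sub_bl hG hlf o J
    exact ⟨m2, hm21, (hJ (bl G o m2) hm2).2.1⟩
  obtain ⟨n, hn⟩ : ∃ z : ℕ, z = R + m + m2 + 1 := ⟨_, rfl⟩
  have hdeg : ∀ v, (te G {v}).card ≤ d := by
    intro v
    have h1 := (hISO V G hG hlf p t q hq1 (a v) e).2.2.2.2 o
    rw [ha v] at h1
    rw [h1, hdd]
  have haup : 0 ≤ 1 - w8 G p q e := by have := hw1 e; linarith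
  have hmain := hTRG V G hG hlf p p' t q hp'0 hp'p hp1 ht0 ht1 hq1 hq2 o n R M d k ρ hR0
    (by omega) hdeg s hsv η hηp.le
    (fun j hj => by
      rw [hR]
      exact Nat.mul_lt_mul_of_pos_right hj (by omega))
    (fun u hu => by
      have h1 := hCLG V G hG hlf p t q hp0 hp1 ht0.le ht1.le hq1 o n k m ρ
        ((bl G o n).filter fun v => R ≤ G.dist o v) s hsv (1 - wI G p q (bl G o m) e)
        (1 - w8 G p q e) (by have := hwI1 (bl G o m) e; linarith)
        (by have := hww e (bl G o m); linarith)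
        (by have := hf0 e; have := hfw e; linarith) hm1 (by omega) (by omega) u hu
        (fun j _ => by
          have h2 := hISO V G hG hlf p t q hq1 (a (u j)) e
          have h3 := (h2.2.2.2.1 o m).1
          rw [ha (u j)] at h3
          have hsj : s (u j) = (a (u j)).mapEdgeSet e := by rw [hs]
          rw [hsj]
          constructor
          · rw [h3]
          · have h4 := hww ((a (u j)).mapEdgeSet e) (bl G o n)
            rw [h2.1] at h4
            linarith)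
      have h5 := hCLH V G hG hlf p' t q hp'0 (by linarith) ht0.le ht1.le hq1 o n k m2 ρ
        ((bl G o n).filter fun v => R ≤ G.dist o v) s hsv (1 - w8 G p q e + δ0 / 2)
        (by linarith) hm21 (by omega) u hu
        (fun j _ => by
          have h2 := hISO V G hG hlf p' t q hq1 (a (u j)) e
          have h3 := (h2.2.2.2.1 o m2).2.1
          rw [ha (u j)] at h3
          have hsj : s (u j) = (a (u j)).mapEdgeSet e := by rw [hs]
          rw [hsj, h3]
          linarith)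
      have h6 := hEP (1 - w8 G p q e) (1 - w8 G p q e - (1 - wI G p q (bl G o m) e)) haup
        (by have := hf0 e; have := hfw e; linarith)
        (by have := hm e he; linarith)
      exact h1.trans (h6.trans (mul_le_mul_of_nonneg_left h5 hηp.le)))
  refine ⟨n, by omega, ?_⟩
  have hrr' : rr p p' = Real.exp L := hrr
  rw [hrr', ← Real.exp_nat_mul] at hmain
  have hK : Real.exp (((d * ((bl G o R).card + M + 1) : ℕ) : ℝ) * L) ≤ K0 := by
    rw [hK0, Real.exp_le_exp]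
    push_cast
    have h7 : (d : ℝ) * c0 * (-Real.log (1 - t) * ((N : ℝ) + M + 1)) ≤ (d : ℝ) * c0 * 6 :=
      mul_le_mul_of_nonneg_left htL (by positivity)
    calc (d : ℝ) * (((bl G o R).card : ℝ) + M + 1) * L
        = (d : ℝ) * c0 * (-Real.log (1 - t) * ((N : ℝ) + M + 1)) := by rw [hL, hN]; ring
      _ ≤ (d : ℝ) * c0 * 6 := h7
      _ = 6 * c0 * d := by ring
  obtain ⟨X, hX⟩ : ∃ z : ℝ, z = eD G p t q (bl G o n) (te G (bl G o n))
      ((bl G o n).filter fun v => R ≤ G.dist o v)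
        (ind (pI G (bl G o n)) (some o) none) := ⟨_, rfl⟩
  rw [← hX] at hmain
  have hp0' : ∀ e, 0 ≤ pr G p t e := pr_nonneg hp0.le ht0.le
  have hp1' : ∀ e, pr G p t e ≤ 1 := pr_le_one hp1.le ht1.le
  have hX0 : 0 ≤ X := by rw [hX]; exact ex_nonneg hp0' hp1' hq1 _ (ind_nonneg _ _)
  have hXε : X ≤ ε := by
    have h8 : X * (1 / 2) ≤ X * (1 - (1 - t / 2) ^ M) :=
      mul_le_mul_of_nonneg_left (by linarith) hX0
    have h9 : X * (1 / 2) ≤ K0 * η :=
      h8.trans (hmain.trans (mul_le_mul_of_nonneg_right hK hηp.le))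
    have h10 : K0 * η = ε / 2 := by
      rw [hη]; field_simp
    linarith
  refine le_trans ?_ hXε
  have h11 : th G p q (bl G o n) o =
      ex (pI G (bl G o n)) (pr G p t) q ((te G (bl G o n)).disjSum ∅)
        (ind (pI G (bl G o n)) (some o) none) := by
    refine ex_congr_p (fun e he => ?_) _
    rcases e with e | v
    · rfl
    · simp at he
  rw [h11]
  have h12 := ex_union_mono (φ := pI G (bl G o n)) hp0' hp1' hq1
    ((te G (bl G o n)).disjSum ∅)
    ((te G (bl G o n)).disjSum ((bl G o n).filter fun v => R ≤ G.dist o v))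
    (f := ind (pI G (bl G o n)) (some o) none) (ind_nonneg _ _) (ind_mono _ _)
  have h13 : (te G (bl G o n)).disjSum ∅ ⊆
      (te G (bl G o n)).disjSum ((bl G o n).filter fun v => R ≤ G.dist o v) :=
    Finset.disjSum_mono (Finset.Subset.refl _) (Finset.empty_subset _)
  rw [hX]
  refine h12.trans (le_of_eq ?_)
  unfold eD
  congr 1
  ext y
  simp only [Finset.mem_union]
  exact ⟨fun h => h.elim (fun h => h13 h) id, Or.inr⟩

end Pool.Agent.Helper1.UQ
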